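import Pool.Agent.W343.FZH.Spec

set_option autoImplicit false

open Finset

namespace Pool.Agent.W408.FZH

open Pool.Agent.W681.FZ Pool.Agent.W343.FZH

/-- links of one period -/
def B0 (c : ℕ → ℂ) (N : ℕ) (r : ℕ) : ℂ := if r ≤ N + 1 then c (r - 1) else c (2 * N + 2 - r)

/-- periodic links -/
def BZ (c : ℕ → ℂ) (N : ℕ) (n : ℤ) : ℂ := B0 c N (n % ((2 * N + 4 : ℕ) : ℤ)).toNat

lemma B0_pm {c : ℕ → ℂ} (hc : PM c) (N r : ℕ) : B0 c N r = 1 ∨ B0 c N r = -1 := by
  unfold B0
  split_ifs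
  · exact hc _
  · exact hc _

lemma BZ_pm {c : ℕ → ℂ} (hc : PM c) (N : ℕ) (n : ℤ) : BZ c N n = 1 ∨ BZ c N n = -1 :=
  B0_pm hc _ _

lemma BZ_per (c : ℕ → ℂ) (N : ℕ) (n : ℤ) : BZ c N (n + ((2 * N + 4 : ℕ) : ℤ)) = BZ c N n := by
  unfold BZ
  rw [Int.add_emod_right]

/-- the links on the half line -/
def BN (c : ℕ → ℂ) (N : ℕ) : ℕ → ℂ := fun k => BZ c N (k : ℤ)

lemma BN_pm {c : ℕ → ℂ} (hc : PM c) (N : ℕ) : PM (BN c N) := fun n => BZ_pm hc N n

lemma BN_per (c : ℕ → ℂ) (N k : ℕ) : BN c N (2 * N + 4 + k) = BN c N k := by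
  unfold BN
  rw [← BZ_per c N (k : ℤ)]
  congr 1
  push_cast
  ring

lemma BN_small (c : ℕ → ℂ) (N k : ℕ) (hk : k < 2 * N + 4) : BN c N k = B0 c N k := by
  unfold BN BZ
  congr 1
  rw [Int.emod_eq_of_lt (by omega) (by omega)]
  simp

lemma BN_first (c : ℕ → ℂ) (N i : ℕ) (hi : i < N) : BN c N (1 + i) = c i := by
  rw [BN_small c N _ (by omega)]
  unfold B0
  rw [if_pos (by omega)]
  congr 1
  omega

lemma BN_second (c : ℕ → ℂ) (N i : ℕ) (hi : i < N) : BN c N (N + 3 + i) = c (N - 1 - i) := by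
  rw [BN_small c N _ (by omega)]
  unfold B0
  rw [if_neg (by omega)]
  congr 1
  omega

lemma det_val (z : ℂ) (c : ℕ → ℂ) (N : ℕ) (h0 : phi z c (N+1) = 0) :
    phi z c N * D z c 1 N = ∏ i ∈ range N, c i := by
  cases N with
  | zero => simp
  | succ M =>
    have h := D_det z c 0 M
    rw [D_origin, D_origin, show M + 2 = M + 1 + 1 by ring, h0, zero_mul, sub_zero] at h
    simpa using h

lemma rev_vals (z : ℂ) (c : ℕ → ℂ) (N : ℕ) (h0 : phi z c (N+1) = 0) :
    phi z (fun i => c (N - 1 - i)) (N+1) = 0 ∧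
    phi z (fun i => c (N - 1 - i)) N = D z c 1 N := by
  cases N with
  | zero =>
    simp at h0 ⊢
    exact h0
  | succ M =>
    have h1 := phi_rev z c M (M+2) le_rfl
    have h2 := phi_rev z c M (M+1) (by omega)
    have e1 : M + 2 - (M + 2) = 0 := by omega
    have e2 : M + 2 - (M + 1) = 1 := by omega
    rw [e1, D_origin] at h1
    rw [e2] at h2
    have e3 : M + 1 - 1 = M := by omega
    rw [e3]
    exact ⟨h1.trans h0, h2⟩

lemma pm_norm {x : ℂ} (h : x = 1 ∨ x = -1) : ‖x‖ = 1 := by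
  rcases h with h | h <;> simp [h]

/-- the monodromy -/
lemma mono (z : ℂ) (c : ℕ → ℂ) (hc : PM c) (N : ℕ) (h0 : phi z c (N+1) = 0) :
    xs z (BN c N) (2 * N + 4) = 0 ∧ ‖xs z (BN c N) (2 * N + 4 + 1)‖ = 1 := by
  set B := BN c N with hB
  have hBpm : PM B := BN_pm hc N
  have hrec := xs_rec z B
  have a1 : phi z (sh 1 B) (N+1) = 0 := by
    rw [← h0]
    exact phi_congr z _ _ _ (fun i hi => BN_first c N i (by omega))
  have a2 : phi z (sh 1 B) N = phi z c N :=
    phi_congr z _ _ _ (fun i hi => BN_first c N i (by omega))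
  have x1 : xs z B (N+2) = 0 := a1
  have x2 : xs z B (N+3) = - B (N+1) * phi z c N := by
    rw [show N + 3 = N + 1 + 2 by ring, hrec, show N + 1 + 1 = N + 2 by ring, x1]
    have : xs z B (N+1) = phi z c N := a2
    rw [this]
    ring
  obtain ⟨r1, r2⟩ := rev_vals z c N h0
  have b1 : D z B (N+3) (N+1) = 0 := by
    rw [← r1]
    exact phi_congr z _ _ _ (fun i hi => BN_second c N i (by omega))
  have b2 : D z B (N+3) N = D z c 1 N := by
    rw [← r2]
    exact phi_congr z _ _ _ (fun i hi => BN_second c N i (by omega))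
  have b3 : D z B (N+3) (N+2) = - B (N + 3 + N) * D z c 1 N := by
    rw [D_succ, b1, b2]
    ring
  have s1 := sol_formula z B (xs z B) hrec (N+2) N
  have s2 := sol_formula z B (xs z B) hrec (N+2) (N+1)
  rw [x1, show N + 2 + 1 = N + 3 by ring, b1] at s1
  rw [x1, show N + 2 + 1 = N + 3 by ring, show N + 1 + 1 = N + 2 by ring, b3, x2] at s2
  refine ⟨?_, ?_⟩
  · rw [show 2 * N + 4 = N + 2 + 2 + N by ring, s1]
    ring
  · rw [show 2 * N + 4 + 1 = N + 2 + 2 + (N + 1) by ring, s2]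
    have e : -B (N + 3 + N) * D z c 1 N * (-B (N + 1) * phi z c N)
        - B (N+2) * D z B (N + 2 + 2) (N+1) * 0
        = B (N + 3 + N) * B (N+1) * (phi z c N * D z c 1 N) := by ring
    rw [e, det_val z c N h0, norm_mul, norm_mul, hBpm.norm, hBpm.norm, pm_norm (prod_pm hc N)]
    norm_num

lemma shiftx (z : ℂ) (B : ℕ → ℂ) (P : ℕ) (hB : ∀ k, B (P + k) = B k)
    (hP : xs z B P = 0) (k : ℕ) : xs z B (P + k) = xs z B (P + 1) * xs z B k := by
  induction k using Nat.strong_induction_on with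
  | _ k ih =>
    match k, ih with
    | 0, _ =>
      have : xs z B 0 = 0 := by simp [xs]
      rw [add_zero, hP, this, mul_zero]
    | 1, _ =>
      have : xs z B 1 = 1 := by simp [xs]
      rw [this, mul_one]
    | (k+2), ih =>
      have h1 := ih (k+1) (by omega)
      have h0 := ih k (by omega)
      rw [← add_assoc P k 2, xs_rec, xs_rec, add_assoc P k 1, h1, h0, hB]
      ring

lemma orbit (z : ℂ) (B : ℕ → ℂ) (P : ℕ) (hB : ∀ k, B (P + k) = B k)
    (hP : xs z B P = 0) (hn : ‖xs z B (P + 1)‖ = 1) (j : ℕ) :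
    xs z B (P * j) = 0 ∧ ‖xs z B (P * j + 1)‖ = 1 := by
  induction j with
  | zero => simp [xs]
  | succ j ih =>
    rw [show P * (j + 1) = P + P * j by ring]
    refine ⟨?_, ?_⟩
    · rw [shiftx z B P hB hP, ih.1, mul_zero]
    · rw [add_assoc, shiftx z B P hB hP, norm_mul, hn, ih.2, mul_one]

lemma lower (x : ℕ → ℂ) (P : ℕ) (hP : 0 < P) (h : ∀ j, ‖x (P * j + 1)‖ = 1) (J : ℕ) :
    (J : ℝ) ≤ ∑ k ∈ range (P * J + 1), ‖x k‖ ^ 2 := by
  induction J with
  | zero => simp
  | succ J ih =>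
    rw [show P * (J + 1) + 1 = P * J + 1 + P by ring, sum_range_add]
    have h1 : (1:ℝ) ≤ ∑ i ∈ range P, ‖x (P * J + 1 + i)‖ ^ 2 := by
      have h2 := single_le_sum (f := fun i => ‖x (P * J + 1 + i)‖ ^ 2) (s := range P)
        (fun i _ => by positivity) (mem_range.2 hP)
      simp only [add_zero, h J] at h2
      simpa using h2
    push_cast
    linarith

theorem partE : PartE := by
  intro z hz
  obtain ⟨c, N, hc, h0⟩ := hz
  refine ⟨BZ c N, BZ_pm hc N, ⟨2 * N + 4, by omega, BZ_per c N⟩, ?_⟩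
  intro hbij
  obtain ⟨C, hC, hb⟩ := hbij.bound'
  set P := 2 * N + 4 with hPdef
  set B := BN c N with hB
  have hBpm : PM B := BN_pm hc N
  obtain ⟨m1, m2⟩ := mono z c hc N h0
  have horb := orbit z B P (BN_per c N) m1 m2
  obtain ⟨J, hJ⟩ := exists_nat_gt (2 * C ^ 2)
  have hJ0 : 0 < J := by
    rcases Nat.eq_zero_or_pos J with h | h
    · subst h
      have : (0:ℝ) ≤ 2 * C ^ 2 := by positivity
      simp at hJ
      linarith
    · exact h
  obtain ⟨m, hm⟩ : ∃ m, P * J = m + 1 := ⟨P * J - 1, by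
    have : 0 < P * J := Nat.mul_pos (by omega) hJ0
    omega⟩
  set x := xs z B with hx
  set X : ℕ → ℂ := fun i => if i ≤ P * J then x i else 0 with hX
  have hwin := window_bound hb 0 (P * J) B X hBpm (fun i _ => by simp [hB, BN]) (fun i hi => by
    simp only [hX]
    rw [if_neg (by omega)])
  have hXle : ∀ i, i ≤ P * J → X i = x i := fun i hi => by
    simp only [hX]
    rw [if_pos hi]
  have hrec := xs_rec z B
  have hx0 : x 0 = 0 := by simp [hx, xs]
  have hx1 : x 1 = 1 := by simp [hx, xs]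
  have l1 : ∑ k ∈ range (P * J + 1), ‖X k‖ ^ 2 = ∑ k ∈ range (P * J + 1), ‖x k‖ ^ 2 := by
    apply sum_congr rfl
    intro k hk
    rw [hXle k (by have := mem_range.1 hk; omega)]
  have l2 := lower x P (by omega) (fun j => (horb j).2) J
  have r0 : ‖X 0‖ = 0 := by rw [hXle 0 (by omega), hx0, norm_zero]
  have rn : ‖X (P * J)‖ = 0 := by rw [hXle _ le_rfl, (horb J).1, norm_zero]
  have rr : ∑ k ∈ range (P * J + 1), ‖res z B X k‖ ^ 2 = 2 := by
    rw [hm, sum_range_succ, sum_range_succ']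
    have t1 : ∑ k ∈ range m, ‖res z B X (k+1)‖ ^ 2 = 0 := by
      apply sum_eq_zero
      intro k hk
      have hk' := mem_range.1 hk
      have : res z B X (k+1) = 0 := by
        rw [res, hXle k (by omega), hXle (k+1) (by omega), hXle (k+2) (by omega), hx, hrec]
        ring
      rw [this]
      simp
    have t2 : ‖res z B X 0‖ ^ 2 = 1 := by
      rw [res, hXle 1 (by omega), hXle 0 (by omega), hx0, hx1]
      simp
    have t3 : ‖res z B X (m+1)‖ ^ 2 = 1 := by
      have e1 : X (m+2) = 0 := by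
        simp only [hX]
        rw [if_neg (by omega)]
      have e2 := hrec m
      have e3 : xs z B (m+2) = x (P * J + 1) := by rw [hm]
      rw [res, hXle m (by omega), hXle (m+1) (by omega), e1]
      have e4 : B m * x m + 0 - z * x (m+1) = - x (P * J + 1) := by
        rw [← e3, e2, hx]
        ring
      rw [e4, norm_neg, (horb J).2]
      norm_num
    rw [t1, t2, t3]
    norm_num
  rw [l1, r0, rn, rr] at hwin
  norm_num at hwin
  linarith

end Pool.Agent.W408.FZH
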